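import Pool.Agent.Y112.KD.Asym

set_option autoImplicit false

/-!
# Permutations of the factors of a tensor power: definitions
-/

open CategoryTheory Limits MonoidalCategory
open Pool.Agent.Y112.KD

namespace Pool.Agent.R911.Sf

universe v u

variable {C : Type u} [Category.{v} C] [MonoidalCategory C] [SymmetricCategory C]

/-- The exchange of the factors number `i` and `i + 1` of the tensor power `X ^ n`; the factors are
numbered `0, …, n - 1` (the identity if `i + 1 ≥ n`). -/
def exch (X : C) : ∀ (n : ℕ) (_ : ℕ), (tp X n ⟶ tp X n)
  | 0, _ => 𝟙 _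
  | 1, _ => 𝟙 _
  | n + 2, i => if i = n then sw (tp X n) X else exch X (n + 1) i ▷ X

/-- A product of exchanges of neighbouring factors of `X ^ n`. -/
def word (X : C) (n : ℕ) : List ℕ → (tp X n ⟶ tp X n)
  | [] => 𝟙 _
  | i :: l => exch X n i ≫ word X n l

/-- The permutation of `{0, …, n - 1}` which belongs to a word in the neighbouring
transpositions. -/
def permOf (n : ℕ) : List ℕ → Equiv.Perm (Fin n)
  | [] => 1
  | i :: l => (if h : i + 1 < n then Equiv.swap (⟨i, by omega⟩ : Fin n) ⟨i + 1, h⟩ else 1) * permOf n l

/-- The `n!` permutations of the factors of `X ^ n` are linearly dependent endomorphisms of `X ^ n`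
over `ℚ`; the permutation `σ` of the factors is written as the product of exchanges of neighbours
given by a word `w σ` for `σ`. Equivalently, the Schur functor of some partition of `n` is zero
on `X`. -/
def PermDependent [Preadditive C] [Linear ℚ C] (X : C) (n : ℕ) : Prop :=
  ∃ w : Equiv.Perm (Fin n) → List ℕ, (∀ σ, permOf n (w σ) = σ) ∧
    ¬ LinearIndependent ℚ (fun σ => word X n (w σ))

/-- `X` is Schur-finite. -/
def SchurFinite [Preadditive C] [Linear ℚ C] (X : C) : Prop :=
  ∃ n, PermDependent X n

end Pool.Agent.R911.Sf
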