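import Pool.Agent.R911.Sf.Defs
import Pool.Agent.Y112.KD.Zip

set_option autoImplicit false

/-!
# Division of Schur-finite objects by objects which are not negligible
-/

open CategoryTheory Limits MonoidalCategory
open Pool.Agent.Y116.MT Pool.Agent.Y112.SR Pool.Agent.Y112.KD

namespace Pool.Agent.R911.Sf

universe v u

section

variable {C : Type u} [Category.{v} C] [MonoidalCategory C] [SymmetricCategory C]

lemma exch_exch (X : C) (n i : ℕ) : exch X n i ≫ exch X n i = 𝟙 _ := by
  induction n with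
  | zero => simp [exch]
  | succ n ih =>
    cases n with
    | zero => simp [exch]
    | succ n =>
      rw [exch]
      split_ifs
      · exact sw_sw _ _
      · rw [← comp_whiskerRight, ih, id_whiskerRight]

lemma word_inv (X : C) (n : ℕ) (l : List ℕ) :
    ∃ v : tp X n ⟶ tp X n, word X n l ≫ v = 𝟙 _ := by
  induction l with
  | nil => exact ⟨𝟙 _, by simp [word]⟩
  | cons i l ih =>
    obtain ⟨v, hv⟩ := ih
    refine ⟨v ≫ exch X n i, ?_⟩
    rw [word, Category.assoc, reassoc_of% hv, exch_exch]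

lemma exch_zip (A B : C) (n i : ℕ) :
    exch (A ⊗ B) n i ≫ zip A B n = zip A B n ≫ (exch A n i ⊗ₘ exch B n i) := by
  induction n with
  | zero => simp [exch]
  | succ n ih =>
    cases n with
    | zero => simp [exch]
    | succ n =>
      rw [exch, exch, exch]
      split_ifs
      · rw [zip_succ, zip_succ, comp_whiskerRight]
        simp only [Category.assoc]
        rw [← sw_mu, reassoc_of% (sw_nat_left (X := A ⊗ B) (zip A B n))]
      · rw [zip_succ, ← comp_whiskerRight_assoc, ih, comp_whiskerRight_assoc,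
          tensorμ_natural_left, Category.assoc]

lemma word_zip (A B : C) (n : ℕ) (l : List ℕ) :
    word (A ⊗ B) n l ≫ zip A B n = zip A B n ≫ (word A n l ⊗ₘ word B n l) := by
  induction l with
  | nil => simp [word]
  | cons i l ih =>
    rw [word, word, word, Category.assoc, ih, reassoc_of% (exch_zip A B n i),
      tensorHom_comp_tensorHom]

lemma exch_nat {X Y : C} (f : X ⟶ Y) (n i : ℕ) :
    tpm f n ≫ exch Y n i = exch X n i ≫ tpm f n := by
  induction n with
  | zero => simp [exch]
  | succ n ih =>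
    cases n with
    | zero => simp [exch]
    | succ n =>
      rw [exch, exch]
      split_ifs
      · exact sw_nat _ _ _
      · have e1 : tpm f (n + 2) = tpm f (n + 1) ⊗ₘ f := rfl
        rw [e1, ← tensorHom_id, ← tensorHom_id, tensorHom_comp_tensorHom,
          tensorHom_comp_tensorHom, ih, Category.id_comp, Category.comp_id]

lemma word_nat {X Y : C} (f : X ⟶ Y) (n : ℕ) (l : List ℕ) :
    tpm f n ≫ word Y n l = word X n l ≫ tpm f n := by
  induction l with
  | nil => simp [word]
  | cons i l ih =>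
    rw [word, word, ← Category.assoc, exch_nat, Category.assoc, ih, Category.assoc]

lemma tpm_comp' {X Y Z : C} (f : X ⟶ Y) (g : Y ⟶ Z) (n : ℕ) :
    tpm f n ≫ tpm g n = tpm (f ≫ g) n := by
  induction n with
  | zero => simp [tpm]
  | succ n ih => rw [tpm, tpm, tpm, tensorHom_comp_tensorHom, ih]

lemma tpm_id' (X : C) (n : ℕ) : tpm (𝟙 X) n = 𝟙 _ := by
  induction n with
  | zero => rfl
  | succ n ih => rw [tpm, ih, id_tensorHom_id]

end

section

variable {C : Type u} [Category.{v} C] [MonoidalCategory C] [SymmetricCategory C]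
  [Preadditive C] [Linear ℚ C] [MonoidalPreadditive C] [MonoidalLinear ℚ C]
  [RightRigidCategory C]

/-- The contraction of the tensor power on the right. -/
noncomputable def con (U X : C) : ∀ n : ℕ, (U ⊗ tp X n ⟶ U ⊗ tp X n) →ₗ[ℚ] (U ⊗ 𝟙_ C ⟶ U ⊗ 𝟙_ C)
  | 0 => LinearMap.id
  | n + 1 => con U X n ∘ₗ
    { toFun := fun y => ptr ((α_ U (tp X n) X).hom ≫ y ≫ (α_ U (tp X n) X).inv)
      map_add' := fun y y' => by
        rw [Preadditive.add_comp, Preadditive.comp_add, ptr_add]
      map_smul' := fun c y => by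
        rw [Linear.smul_comp, Linear.comp_smul, ptr_smul, RingHom.id_apply] }

lemma con_tensor (U X : C) (n : ℕ) (h : U ⟶ U) (k : tp X n ⟶ tp X n) :
    con U X n (h ⊗ₘ k) = h ⊗ₘ ff X n k := by
  induction n with
  | zero => rfl
  | succ n ih =>
    have h1 : ptr ((α_ U (tp X n) X).hom ≫ (h ⊗ₘ k) ≫ (α_ U (tp X n) X).inv) = h ⊗ₘ ptr k := by
      rw [MonoidalCategory.tensorHom_def, MonoidalCategory.tensorHom_def, ← ptr_assoc,
        ← ptr_comp_left]
      congr 1
      simp
    change con U X n (ptr ((α_ U (tp X n) X).hom ≫ (h ⊗ₘ k) ≫ (α_ U (tp X n) X).inv)) = _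
    rw [h1, ih]
    rfl

lemma ff_tpm (hU : UnitQ C) {X : C} (f : X ⟶ X) (n : ℕ) :
    ff X n (tpm f n) = (trq hU X f) ^ n • 𝟙 _ := by
  induction n with
  | zero => rw [pow_zero, one_smul]; rfl
  | succ n ih =>
    change ff X n (ptr (tpm f n ⊗ₘ f)) = _
    rw [ptr_tensor _ _ _ (trq_spec hU f), map_smul, ih, smul_smul, pow_succ, mul_comm]

/-- **Division by an object with an endomorphism of nonzero trace.** -/
theorem division (hU : UnitQ C) {M N P : C} (i : M ⊗ N ⟶ P) (r : P ⟶ M ⊗ N)
    (hir : i ≫ r = 𝟙 _) (f : N ⟶ N) (hf : tr f ≠ 0) {n : ℕ} (hP : PermDependent P n) :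
    PermDependent M n := by
  classical
  obtain ⟨w, hw, hdep⟩ := hP
  refine ⟨w, hw, ?_⟩
  rw [Fintype.not_linearIndependent_iff] at hdep ⊢
  obtain ⟨z, hz, τ, hτ⟩ := hdep
  -- the relation for `M ⊗ N`
  have h1 : ∑ σ, z σ • word (M ⊗ N) n (w σ) = 0 := by
    have h2 := congrArg (fun y => tpm i n ≫ y ≫ tpm r n) hz
    simp only [Preadditive.sum_comp, Preadditive.comp_sum, Linear.smul_comp, Linear.comp_smul,
      comp_zero, zero_comp] at h2
    rw [← h2]
    refine Finset.sum_congr rfl fun σ _ => ?_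
    rw [← word_nat, ← Category.assoc, tpm_comp', hir, tpm_id', Category.id_comp]
  -- the relation on the tensor product of the tensor powers
  have h3 : ∑ σ, z σ • (word M n (w σ) ⊗ₘ word N n (w σ)) = 0 := by
    obtain ⟨u, hu⟩ := zip_inv M N n
    have h4 := congrArg (fun y => u ≫ y ≫ zip M N n) h1
    simp only [Preadditive.sum_comp, Preadditive.comp_sum, Linear.smul_comp, Linear.comp_smul,
      comp_zero, zero_comp] at h4
    rw [← h4]
    refine Finset.sum_congr rfl fun σ _ => ?_
    rw [word_zip, reassoc_of% hu]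
  obtain ⟨v, hv⟩ := word_inv N n (w τ)
  choose t ht using fun σ => hU.ex (ff N n (word N n (w σ) ≫ v ≫ tpm f n))
  have h5 : ∑ σ, (z σ * t σ) • word M n (w σ) = 0 := by
    have h6 := congrArg (fun y => con (tp M n) N n (y ≫ (𝟙 (tp M n) ⊗ₘ (v ≫ tpm f n)))) h3
    simp only [Preadditive.sum_comp, Linear.smul_comp, zero_comp, map_sum, map_smul, map_zero,
      tensorHom_comp_tensorHom, Category.comp_id, con_tensor, ht] at h6
    have h7 := congrArg (fun y => (ρ_ (tp M n)).inv ≫ y ≫ (ρ_ (tp M n)).hom) h6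
    simp only [Preadditive.sum_comp, Preadditive.comp_sum, Linear.smul_comp, Linear.comp_smul,
      comp_zero, zero_comp] at h7
    rw [← h7]
    refine Finset.sum_congr rfl fun σ _ => ?_
    rw [MonoidalCategory.tensorHom_def, MonoidalLinear.whiskerLeft_smul, Linear.comp_smul,
      Linear.smul_comp, Linear.comp_smul, smul_smul]
    simp
  refine ⟨fun σ => z σ * t σ, h5, τ, mul_ne_zero hτ ?_⟩
  intro h0
  have h8 := ht τ
  rw [reassoc_of% hv, ff_tpm hU, h0, zero_smul] at h8
  have h9 : trq hU N f ≠ 0 := by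
    intro h10
    apply hf
    rw [trq_spec hU f, h10, zero_smul]
  have h11 : (trq hU N f) ^ n • 𝟙 (𝟙_ C) = (0 : ℚ) • 𝟙 (𝟙_ C) := by rw [h8, zero_smul]
  exact pow_ne_zero n h9 (hU.inj h11)

end

end Pool.Agent.R911.Sf
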